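import Mathlib

set_option autoImplicit false

namespace Pool.Agent.Results.MP_8b0535_co.NoAdmissible

open Finset Filter Topology

/-- A bipartite graph with parts `A = Fin m` and a finite set `B`. -/
structure BipGraph (m : ℕ) where
  /-- the part `B` -/
  B : Type
  /-- `B` is finite -/
  fin : Fintype B
  /-- adjacency between `A` and `B` -/
  adj : Fin m → B → Prop

/-- The common neighbourhood `N(S)` of a set `S` of vertices of `A`. -/
def BipGraph.N {m : ℕ} (G : BipGraph m) (S : Set (Fin m)) : Set G.B := {b | ∀ u ∈ S, G.adj u b}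

/-- The sequence `(G_m)` is admissible for `b₂`. (All conditions are only required for all
sufficiently large `m`.) -/
def Admissible (b₂ : ℕ → ℝ) (G : ∀ m, BipGraph m) : Prop :=
  (∀ ε : ℝ, 0 < ε → ∀ᶠ m in atTop, ∀ u : Fin m,
    |(((G m).N {u}).ncard : ℝ) / m - 1| ≤ ε) ∧
  (∀ ε : ℝ, 0 < ε → ∀ᶠ m in atTop, ∀ u v : Fin m, u ≠ v →
    |(((G m).N {u, v}).ncard : ℝ) / b₂ m - 1| ≤ ε) ∧
  (∀ᶠ m in atTop, ∀ u v w : Fin m, u ≠ v → u ≠ w → v ≠ w → ((G m).N {u, v, w}).ncard = 1)

lemma core {m : ℕ} {B : Type} [Fintype B] [DecidableEq B] (adj : Fin m → B → Prop)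
    [∀ v, DecidablePred (adj v)] (c : ℕ)
    (h2 : ∀ u v, u ≠ v → #(univ.filter (fun b => adj u b ∧ adj v b)) ≤ c)
    (h3 : ∀ u v w, u ≠ v → u ≠ w → v ≠ w → ∃ b, adj u b ∧ adj v b ∧ adj w b)
    (h3' : ∀ u v w, u ≠ v → u ≠ w → v ≠ w → ∀ b b', (adj u b ∧ adj v b ∧ adj w b) →
      (adj u b' ∧ adj v b' ∧ adj w b') → b = b')
    (hm : c * c + 2 < m) : ∃ b0, ∀ v, adj v b0 := by
  classical
  let u : Fin m := ⟨0, by omega⟩
  let L : B → Finset (Fin m) := fun b => univ.filter (fun v => v ≠ u ∧ adj v b)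
  have hne : (univ.filter (fun b => adj u b)).Nonempty := by
    obtain ⟨b, hb, -⟩ := h3 u ⟨1, by omega⟩ ⟨2, by omega⟩
      (by simp [u]) (by simp [u]) (by simp)
    exact ⟨b, by simpa using hb⟩
  obtain ⟨b0, hb0, hmax⟩ := Finset.exists_max_image _ (fun b => #(L b)) hne
  rw [Finset.mem_filter] at hb0
  refine ⟨b0, ?_⟩
  by_contra hcon
  push Not at hcon
  obtain ⟨v, hv⟩ := hcon
  have hvu : v ≠ u := by
    rintro rfl
    exact hv hb0.2
  -- common neighbour of u, v, w
  have hcom : ∀ w : Fin m, ∃ b, w ≠ u → w ≠ v → adj u b ∧ adj v b ∧ adj w b := by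
    intro w
    by_cases hw : w ≠ u ∧ w ≠ v
    · obtain ⟨b, hb⟩ := h3 u v w hvu.symm hw.1.symm hw.2.symm
      exact ⟨b, fun _ _ => hb⟩
    · exact ⟨b0, fun h1 h2 => absurd ⟨h1, h2⟩ hw⟩
  choose β hβ using hcom
  -- L ≤ c
  have hL : #(L b0) ≤ c := by
    refine le_trans ?_ (h2 u v hvu.symm)
    refine Finset.card_le_card_of_injOn β ?_ ?_
    · intro w hw
      simp only [L, Finset.coe_filter, Finset.mem_univ, true_and, Set.mem_ofPred_eq] at hw
      have hwv : w ≠ v := by
        rintro rfl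
        exact hv hw.2
      have := hβ w hw.1 hwv
      simp only [Finset.coe_filter, Finset.mem_univ, true_and, Set.mem_ofPred_eq]
      exact ⟨this.1, this.2.1⟩
    · intro w hw w' hw' hww
      simp only [L, Finset.coe_filter, Finset.mem_univ, true_and, Set.mem_ofPred_eq] at hw hw'
      have hwv : w ≠ v := by
        rintro rfl
        exact hv hw.2
      have hwv' : w' ≠ v := by
        rintro rfl
        exact hv hw'.2
      by_contra hne'
      have a1 := hβ w hw.1 hwv
      have a2 := hβ w' hw'.1 hwv'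
      have := h3' u w w' hw.1.symm hw'.1.symm hne' (β w) b0 ⟨a1.1, a1.2.2, by rw [hww]; exact a2.2.2⟩
        ⟨hb0.2, hw.2, hw'.2⟩
      rw [this] at a1
      exact hv a1.2.1
  -- cover
  have hcov : #(univ.filter (fun w : Fin m => w ≠ u ∧ w ≠ v)) ≤
      c * #(univ.filter (fun b => adj u b ∧ adj v b)) := by
    refine Finset.card_le_mul_card_image_of_maps_to (f := β) ?_ c ?_
    · intro w hw
      rw [Finset.mem_filter] at hw
      have := hβ w hw.2.1 hw.2.2
      rw [Finset.mem_filter]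
      exact ⟨Finset.mem_univ _, this.1, this.2.1⟩
    · intro b hb
      rw [Finset.mem_filter] at hb
      refine le_trans ?_ ((hmax b (by rw [Finset.mem_filter]; exact ⟨Finset.mem_univ _, hb.2.1⟩)).trans hL)
      apply Finset.card_le_card
      intro w hw
      rw [Finset.mem_filter, Finset.mem_filter] at hw
      simp only [L, Finset.mem_filter, Finset.mem_univ, true_and]
      refine ⟨hw.1.2.1, ?_⟩
      rw [← hw.2]
      exact (hβ w hw.1.2.1 hw.1.2.2).2.2
  have hcard : m - 2 ≤ #(univ.filter (fun w : Fin m => w ≠ u ∧ w ≠ v)) := by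
    have : univ.filter (fun w : Fin m => w ≠ u ∧ w ≠ v) = univ \ {u, v} := by
      ext w; simp
    rw [this]
    have h := Finset.le_card_sdiff {u, v} (univ : Finset (Fin m))
    have h' : #({u, v} : Finset (Fin m)) ≤ 2 := Finset.card_le_two
    rw [Finset.card_univ, Fintype.card_fin] at h
    omega
  have h5 := h2 u v hvu.symm
  have h6 := Nat.mul_le_mul_left c h5
  omega

lemma big_degree {m : ℕ} {B : Type} [Fintype B] [DecidableEq B] (adj : Fin m → B → Prop)
    [∀ v, DecidablePred (adj v)] (d : ℕ)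
    (h2 : ∀ u v, u ≠ v → d + 1 ≤ #(univ.filter (fun b => adj u b ∧ adj v b)))
    (h3' : ∀ u v w, u ≠ v → u ≠ w → v ≠ w → ∀ b b', (adj u b ∧ adj v b ∧ adj w b) →
      (adj u b' ∧ adj v b' ∧ adj w b') → b = b') (b0 : B) (hb0 : ∀ v, adj v b0) (u : Fin m) :
    (m - 1) * d ≤ #(univ.filter (fun b => adj u b)) := by
  classical
  have hdisj : ∀ v ∈ univ.erase u, ∀ w ∈ univ.erase u, v ≠ w →
      Disjoint ((univ.filter (fun b => adj u b ∧ adj v b)).erase b0)
        ((univ.filter (fun b => adj u b ∧ adj w b)).erase b0) := by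
    intro v hv w hw hvw
    rw [Finset.disjoint_left]
    intro b hb hb'
    simp only [Finset.mem_erase, Finset.mem_filter, Finset.mem_univ, true_and, and_true] at hb hb' hv hw
    exact hb.1 (h3' u v w (Ne.symm hv) (Ne.symm hw) hvw b b0 ⟨hb.2.1, hb.2.2, hb'.2.2⟩
      ⟨hb0 _, hb0 _, hb0 _⟩)
  have h1 := Finset.card_biUnion hdisj
  have h2' : ∀ v ∈ univ.erase u, d ≤ #((univ.filter (fun b => adj u b ∧ adj v b)).erase b0) := by
    intro v hv
    have hv' : v ≠ u := Finset.ne_of_mem_erase hv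
    have := h2 u v hv'.symm
    rw [Finset.card_erase_of_mem (by simp [hb0])]
    omega
  have h4 := Finset.card_nsmul_le_sum _ _ _ h2'
  rw [← h1, Finset.card_erase_of_mem (Finset.mem_univ _), Finset.card_univ, Fintype.card_fin,
    smul_eq_mul] at h4
  refine h4.trans (Finset.card_le_card ?_)
  intro b hb
  simp only [Finset.mem_biUnion, Finset.mem_erase, Finset.mem_filter, Finset.mem_univ,
    true_and] at hb ⊢
  obtain ⟨v, -, -, h, -⟩ := hb
  exact h

lemma ncard_eq {B : Type} [Fintype B] (P : B → Prop) [DecidablePred P] :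
    {b | P b}.ncard = #(univ.filter P) := by
  rw [← Set.ncard_coe_finset]
  congr 1
  ext; simp

/-- For no function `b₂` with `1 ≪ b₂ ≪ √m` is there an admissible sequence. -/
theorem result (b₂ : ℕ → ℝ) (h1 : Tendsto b₂ atTop atTop)
    (h2 : Tendsto (fun m : ℕ => b₂ m / Real.sqrt m) atTop (𝓝 0)) :
    ¬ ∃ G : ∀ m, BipGraph m, Admissible b₂ G := by
  classical
  rintro ⟨G, hdeg, hpair, htrip⟩
  have e1 := hdeg (1 / 2) (by norm_num)
  have e2 := hpair (1 / 2) (by norm_num)
  have e3 := h1.eventually_ge_atTop 8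
  have e4 : ∀ᶠ m : ℕ in atTop, b₂ m / Real.sqrt m < 1 / 2 :=
    h2.eventually (gt_mem_nhds (by norm_num))
  obtain ⟨m, hm1, hm2, hm3, hm4, hm5, hm6⟩ :=
    (e1.and (e2.and (htrip.and (e3.and (e4.and (eventually_ge_atTop 6)))))).exists
  have := (G m).fin
  have hmpos : (0 : ℝ) < m := by
    have : (6 : ℝ) ≤ m := by exact_mod_cast hm6
    linarith
  have hb0 : 0 < b₂ m := by linarith
  -- reformulate
  have hN1 : ∀ u, ((G m).N {u}).ncard = #(univ.filter (fun b => (G m).adj u b)) := by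
    intro u
    rw [← ncard_eq]
    congr 1
    ext b
    simp [BipGraph.N]
  have hN2 : ∀ u v, ((G m).N {u, v}).ncard =
      #(univ.filter (fun b => (G m).adj u b ∧ (G m).adj v b)) := by
    intro u v
    rw [← ncard_eq]
    congr 1
    ext b
    simp [BipGraph.N]
  have hN3 : ∀ u v w, (G m).N {u, v, w} =
      {b | (G m).adj u b ∧ (G m).adj v b ∧ (G m).adj w b} := by
    intro u v w
    ext b
    simp [BipGraph.N]
  have t1 : ∀ u v w, u ≠ v → u ≠ w → v ≠ w →
      ∃ b, (G m).adj u b ∧ (G m).adj v b ∧ (G m).adj w b := by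
    intro u v w a1 a2 a3
    have := hm3 u v w a1 a2 a3
    rw [Set.ncard_eq_one] at this
    obtain ⟨b, hb⟩ := this
    rw [hN3] at hb
    have : b ∈ ({b} : Set (G m).B) := rfl
    rw [← hb] at this
    exact ⟨b, this⟩
  have t2 : ∀ u v w, u ≠ v → u ≠ w → v ≠ w → ∀ b b',
      ((G m).adj u b ∧ (G m).adj v b ∧ (G m).adj w b) →
      ((G m).adj u b' ∧ (G m).adj v b' ∧ (G m).adj w b') → b = b' := by
    intro u v w a1 a2 a3 b b' hb hb'
    have := hm3 u v w a1 a2 a3
    rw [Set.ncard_eq_one] at this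
    obtain ⟨b1, hb1⟩ := this
    rw [hN3] at hb1
    have c1 : b ∈ ({b1} : Set (G m).B) := by rw [← hb1]; exact hb
    have c2 : b' ∈ ({b1} : Set (G m).B) := by rw [← hb1]; exact hb'
    rw [Set.mem_singleton_iff] at c1 c2
    rw [c1, c2]
  have hup : ∀ u v, u ≠ v → (#(univ.filter (fun b => (G m).adj u b ∧ (G m).adj v b)) : ℝ)
      ≤ 3 / 2 * b₂ m := by
    intro u v huv
    have := hm2 u v huv
    rw [hN2, abs_le] at this
    have h := this.2
    have : (#(univ.filter (fun b => (G m).adj u b ∧ (G m).adj v b)) : ℝ) / b₂ m ≤ 3 / 2 := by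
      linarith
    rwa [div_le_iff₀ hb0] at this
  have hlow : ∀ u v, u ≠ v → 1 / 2 * b₂ m ≤
      (#(univ.filter (fun b => (G m).adj u b ∧ (G m).adj v b)) : ℝ) := by
    intro u v huv
    have := hm2 u v huv
    rw [hN2, abs_le] at this
    have h := this.1
    have : 1 / 2 ≤ (#(univ.filter (fun b => (G m).adj u b ∧ (G m).adj v b)) : ℝ) / b₂ m := by
      linarith
    rwa [le_div_iff₀ hb0] at this
  -- the vertex adjacent to everything
  set c : ℕ := ⌊3 / 2 * b₂ m⌋₊ with hc
  have hc1 : (c : ℝ) ≤ 3 / 2 * b₂ m := Nat.floor_le (by positivity)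
  have hsq : b₂ m ^ 2 < m / 4 := by
    have hs : 0 < Real.sqrt m := Real.sqrt_pos.mpr hmpos
    rw [div_lt_iff₀ hs] at hm5
    have : b₂ m ^ 2 < (1 / 2 * Real.sqrt m) ^ 2 := by
      apply pow_lt_pow_left₀ hm5 hb0.le (by norm_num)
    rw [mul_pow, Real.sq_sqrt hmpos.le] at this
    linarith
  have hcm : c * c + 2 < m := by
    have h5 : (c : ℝ) * c ≤ (3 / 2 * b₂ m) * (3 / 2 * b₂ m) :=
      mul_le_mul hc1 hc1 (Nat.cast_nonneg _) (by positivity)
    have h6 : (6 : ℝ) ≤ m := by exact_mod_cast hm6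
    have : ((c * c + 2 : ℕ) : ℝ) < m := by
      push_cast
      nlinarith
    exact_mod_cast this
  obtain ⟨b0, hball⟩ := core (G m).adj c
    (fun u v huv => by
      rw [hc]
      exact Nat.le_floor (hup u v huv)) t1 t2 hcm
  have hbig := big_degree (G m).adj 3
    (fun u v huv => by
      have := hlow u v huv
      have h7 : (4 : ℝ) ≤ #(univ.filter (fun b => (G m).adj u b ∧ (G m).adj v b)) := by linarith
      exact_mod_cast h7) t2 b0 hball ⟨0, by omega⟩
  have h8 := hm1 ⟨0, by omega⟩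
  rw [hN1, abs_le] at h8
  have h9 : (#(univ.filter (fun b => (G m).adj ⟨0, by omega⟩ b)) : ℝ) / m ≤ 3 / 2 := by
    linarith [h8.2]
  rw [div_le_iff₀ hmpos] at h9
  have h10 : (((m - 1) * 3 : ℕ) : ℝ) ≤ 3 / 2 * m := le_trans (by exact_mod_cast hbig) h9
  rw [Nat.cast_mul, Nat.cast_sub (by omega)] at h10
  have h6 : (6 : ℝ) ≤ m := by exact_mod_cast hm6
  push_cast at h10
  linarith

end Pool.Agent.Results.MP_8b0535_co.NoAdmissible
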